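import Mathlib.NumberTheory.ArithmeticFunction.Misc

set_option autoImplicit false

namespace Pool.Agent.MP_bcda77_nt

/-- The least deficient `k ≥ 1` such that `k * n` is not deficient. -/
noncomputable def a (n : ℕ) : ℕ :=
  sInf {k : ℕ | 1 ≤ k ∧ ArithmeticFunction.sigma 1 k < 2 * k ∧
    2 * (k * n) ≤ ArithmeticFunction.sigma 1 (k * n)}

/-- The smallest prime strictly greater than `2 ^ m`. -/
noncomputable def p (m : ℕ) : ℕ := sInf {q : ℕ | q.Prime ∧ 2 ^ m < q}

end Pool.Agent.MP_bcda77_nt
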