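import Mathlib.Data.Int.Star
import Mathlib.Algebra.Order.Ring.Star
import Mathlib.NumberTheory.Bertrand
import Mathlib.Tactic.Algebra.Basic
import Pool.Agent.MP_bcda77_nt.Defs

set_option autoImplicit false

namespace Pool.Agent.MP_bcda77_nt

open ArithmeticFunction

/-- The set whose least element is `a n`. -/
def S (n : ℕ) : Set ℕ := {k : ℕ | 1 ≤ k ∧ sigma 1 k < 2 * k ∧ 2 * (k * n) ≤ sigma 1 (k * n)}

theorem a_eq_iff {n k : ℕ} (hk : 0 < k) : a n = k ↔ IsLeast (S n) k := by
  constructor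
  · intro h
    have hne : (S n).Nonempty := by
      by_contra hc
      rw [Set.not_nonempty_iff_eq_empty] at hc
      have : a n = 0 := by
        change sInf (S n) = 0
        rw [hc, Nat.sInf_empty]
      omega
    rw [← h]
    exact ⟨Nat.sInf_mem hne, fun _ hb => Nat.sInf_le hb⟩
  · intro h
    exact h.csInf_eq

theorem sigma_two_pow (m : ℕ) : sigma 1 (2 ^ m) + 1 = 2 ^ (m + 1) := by
  rw [sigma_one_apply_prime_pow Nat.prime_two]
  induction m with
  | zero => simp
  | succ m ih => rw [Finset.sum_range_succ, pow_succ 2 (m + 1)]; omega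

theorem p_spec (m : ℕ) : (p m).Prime ∧ 2 ^ m < p m := by
  have hne : {q : ℕ | q.Prime ∧ 2 ^ m < q}.Nonempty := by
    obtain ⟨q, h1, h2⟩ := Nat.exists_infinite_primes (2 ^ m + 1)
    exact ⟨q, h2, h1⟩
  exact Nat.sInf_mem hne

theorem p_le {m q : ℕ} (hq : q.Prime) (h : 2 ^ m < q) : p m ≤ q := Nat.sInf_le ⟨hq, h⟩

theorem p_lt {m : ℕ} (hm : 1 ≤ m) : p m < 2 ^ (m + 1) := by
  obtain ⟨q, h1, h2, h3⟩ := Nat.exists_prime_lt_and_le_two_mul (2 ^ m) (by positivity)
  have h4 : q ≠ 2 * 2 ^ m := by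
    rintro rfl
    have h5 : 2 ≤ 2 ^ m := by
      calc 2 = 2 ^ 1 := rfl
        _ ≤ 2 ^ m := Nat.pow_le_pow_right (by norm_num) hm
    exact Nat.not_prime_mul (by norm_num) (by omega) h1
  have := p_le h1 h2
  rw [pow_succ]
  omega

theorem sigma_ge_of_subset {n : ℕ} (s : Finset ℕ) (hs : s ⊆ n.divisors) :
    ∑ d ∈ s, d ≤ sigma 1 n := by
  rw [sigma_one_apply]
  exact Finset.sum_le_sum_of_subset hs

theorem no_earlier {m n : ℕ} (hm : 1 ≤ m) (h2 : 2 ≤ n) (hn : n < p m) : a n ≠ 2 ^ m := by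
  intro h
  rw [a_eq_iff (by positivity)] at h
  obtain ⟨⟨-, -, h3⟩, hmin⟩ := h
  rcases Nat.even_or_odd n with ⟨j, hj⟩ | hodd
  · have hj0 : 0 < j := by omega
    have h4 : 3 ∈ S n := by
      refine ⟨by norm_num, by decide, ?_⟩
      have := sigma_ge_of_subset (n := 3 * n) {j, 2 * j, 3 * j, 6 * j} (by
        intro d hd
        simp only [Finset.mem_insert, Finset.mem_singleton] at hd
        rw [Nat.mem_divisors]
        refine ⟨?_, by omega⟩
        rcases hd with rfl | rfl | rfl | rfl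
        · exact ⟨6, by omega⟩
        · exact ⟨3, by omega⟩
        · exact ⟨2, by omega⟩
        · exact ⟨1, by omega⟩)
      rw [Finset.sum_insert (by simp; omega), Finset.sum_insert (by simp; omega),
        Finset.sum_insert (by simp; omega), Finset.sum_singleton] at this
      omega
    have h5 : 2 ^ m ≤ 3 := hmin h4
    have hm1 : m = 1 := by
      by_contra hc
      have : 2 ^ 2 ≤ 2 ^ m := Nat.pow_le_pow_right (by norm_num) (by omega)
      omega
    subst hm1
    have h6 := p_lt (m := 1) le_rfl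
    have hn2 : n = 2 := by omega
    subst hn2
    revert h3
    decide
  · obtain ⟨m, rfl⟩ : ∃ m', m = m' + 1 := ⟨m - 1, by omega⟩
    have hs := sigma_two_pow m
    have hq := Nat.minFac_prime (n := n) (by omega)
    obtain ⟨c, hc⟩ := Nat.minFac_dvd n
    set q := n.minFac with hqdef
    have hqn : q ≤ n := Nat.minFac_le (by omega)
    have hq2 : q ≤ 2 ^ (m + 1) := by
      by_contra hc'
      have := p_le hq (not_le.1 hc')
      omega
    have hq3 : q ≠ 2 ^ (m + 1) := by
      intro hc'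
      have : 2 ∣ n := by
        rw [hc, hc', pow_succ]
        exact Dvd.dvd.mul_right (Dvd.intro_left _ rfl) _
      exact (Nat.not_even_iff_odd.2 hodd) (even_iff_two_dvd.2 this)
    have hc0 : 0 < c := by
      rcases Nat.eq_zero_or_pos c with rfl | h
      · omega
      · exact h
    have hcn : c ≠ n := by
      intro h
      have h1 := hq.two_le
      nlinarith
    have hsig : c + n ≤ sigma 1 n := by
      have := sigma_ge_of_subset (n := n) {c, n} (by
        intro d hd
        simp only [Finset.mem_insert, Finset.mem_singleton] at hd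
        rw [Nat.mem_divisors]
        refine ⟨?_, by omega⟩
        rcases hd with rfl | rfl
        · exact Dvd.intro_left _ hc.symm
        · exact dvd_rfl)
      rwa [Finset.sum_pair hcn] at this
    have hcop : Nat.Coprime (2 ^ m) n := Nat.Coprime.pow_left _ (Nat.coprime_two_left.2 hodd)
    have h7 : 2 ^ m ∈ S n := by
      refine ⟨Nat.one_le_two_pow, by rw [pow_succ] at hs; omega, ?_⟩
      rw [isMultiplicative_sigma.map_mul_of_coprime hcop]
      have e1 : q ≤ sigma 1 (2 ^ m) := by omega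
      have e2 : 2 * (2 ^ m * n) = sigma 1 (2 ^ m) * n + n := by
        rw [← mul_assoc, ← pow_succ', ← hs]
        ring
      have e3 : n ≤ sigma 1 (2 ^ m) * c := by
        calc n = q * c := hc
          _ ≤ _ := Nat.mul_le_mul_right _ e1
      calc 2 * (2 ^ m * n) = sigma 1 (2 ^ m) * n + n := e2
        _ ≤ sigma 1 (2 ^ m) * (c + n) := by rw [mul_add]; omega
        _ ≤ _ := Nat.mul_le_mul_left _ hsig
    have h8 : 2 ^ (m + 1) ≤ 2 ^ m := hmin h7
    have : 2 ^ m < 2 ^ (m + 1) := Nat.pow_lt_pow_right (by norm_num) (by omega)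
    omega

theorem sigma_mul_prime {k q : ℕ} (hq : q.Prime) (hk : 1 ≤ k) (hkq : k < q) :
    sigma 1 (k * q) = sigma 1 k * (q + 1) := by
  have hcop : Nat.Coprime k q := (Nat.coprime_of_lt_prime (by omega) hkq hq).symm
  rw [isMultiplicative_sigma.map_mul_of_coprime hcop]
  congr 1
  have := sigma_one_apply_prime_pow (i := 1) hq
  rw [pow_one] at this
  rw [this, Finset.sum_range_succ, Finset.sum_range_succ]
  simp [add_comm]

theorem a_p_iff {m : ℕ} (hm : 1 ≤ m) :
    a (p m) = 2 ^ m ↔ ¬ ∃ k : ℕ, sigma 1 k + 1 = 2 * k ∧ p m < 2 * k ∧ k < 2 ^ m := by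
  obtain ⟨hp, hlt⟩ := p_spec m
  have hlt2 := p_lt hm
  rw [a_eq_iff (by positivity)]
  constructor
  · rintro ⟨-, hmin⟩ ⟨k, h1, h2, h3⟩
    have hk : k ∈ S (p m) := by
      refine ⟨by omega, by omega, ?_⟩
      rw [sigma_mul_prime hp (by omega) (by omega)]
      have : 2 * (k * p m) = (sigma 1 k + 1) * p m := by rw [h1]; ring
      rw [this]
      have h4 : p m ≤ sigma 1 k := by omega
      nlinarith
    have := hmin hk
    omega
  · intro h
    have hs := sigma_two_pow m
    refine ⟨⟨Nat.one_le_two_pow, by rw [pow_succ] at hs; omega, ?_⟩, ?_⟩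
    · rw [sigma_mul_prime hp Nat.one_le_two_pow hlt]
      have : 2 * (2 ^ m * p m) = (sigma 1 (2 ^ m) + 1) * p m := by rw [hs, pow_succ]; ring
      rw [this]
      have h4 : p m ≤ sigma 1 (2 ^ m) := by omega
      nlinarith
    · rintro k ⟨h1, h2, h3⟩
      by_contra hc
      rw [not_le] at hc
      rw [sigma_mul_prime hp h1 (by omega)] at h3
      apply h
      obtain ⟨d, hd⟩ : ∃ d, sigma 1 k + (d + 1) = 2 * k := ⟨2 * k - sigma 1 k - 1, by omega⟩
      have e1 : 2 * (k * p m) = (sigma 1 k + (d + 1)) * p m := by rw [hd]; ring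
      have e2 : (d + 1) * p m ≤ sigma 1 k := by nlinarith
      have hd0 : d = 0 := by
        by_contra hd0
        have : 2 * p m ≤ (d + 1) * p m := Nat.mul_le_mul_right _ (by omega)
        omega
      subst hd0
      exact ⟨k, by omega, by omega, hc⟩

theorem first_iff {m : ℕ} (hm : 1 ≤ m) :
    IsLeast {n : ℕ | 2 ≤ n ∧ a n = 2 ^ m} (p m) ↔
      ¬ ∃ k : ℕ, sigma 1 k + 1 = 2 * k ∧ p m < 2 * k ∧ k < 2 ^ m := by
  rw [← a_p_iff hm]
  refine ⟨fun h => h.1.2, fun h => ⟨⟨(p_spec m).1.two_le, h⟩, ?_⟩⟩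
  rintro n ⟨h1, h2⟩
  by_contra hc
  exact no_earlier hm h1 (not_le.1 hc) h2

end Pool.Agent.MP_bcda77_nt
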